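import Pool.Agent.L7h47.DF.Stm

/-! Project DF, part SHF: the multiplier `p` maps the difference set to a translate. -/

set_option autoImplicit false

namespace Pool.Agent.L7h36.DF

open Pool.Agent.L7h47.DF

theorem card_pairs {G : Type} [DecidableEq G] (D : Finset G) (P : G → G → Prop)
    [∀ a b, Decidable (P a b)] :
    ((D ×ˢ D).filter fun e => P e.1 e.2).card = ∑ d ∈ D, ∑ e ∈ D, if P d e then 1 else 0 := by
  rw [Finset.card_filter, Finset.sum_product]

theorem sum_ne_zero_iff' {G : Type} (D : Finset G) (q : G → Prop) [DecidablePred q] {n : ℕ}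
    (hn : n ≠ 0) : (∑ d ∈ D, if q d then n else 0) ≠ 0 ↔ ∃ d ∈ D, q d := by
  rw [Ne, Finset.sum_eq_zero_iff]
  push Not
  refine exists_congr fun d => and_congr_right fun _ => ?_
  by_cases h : q d
  · simp [h, hn]
  · simp [h]

theorem s_SHF : S_SHF := by
  intro G _ _ _ k lam D hD p hlk g0 hF
  obtain ⟨hcard, hdiff⟩ := hD
  have hn : k - lam ≠ 0 := by omega
  have hA : ∀ z : G, (∑ e' ∈ D, ∑ e ∈ D, if e' - e = z then 1 else 0) =
      lam + (if z = 0 then k - lam else 0) := by
    intro z
    by_cases hz : z = 0
    · subst hz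
      rw [if_pos rfl]
      have h1 : ∀ e' ∈ D, (∑ e ∈ D, if e' - e = 0 then 1 else 0) = 1 := by
        intro e' he'
        rw [Finset.sum_eq_single e']
        · simp
        · intro e _ he
          rw [if_neg]
          intro h
          exact he (sub_eq_zero.1 h).symm
        · intro h
          exact absurd he' h
      rw [Finset.sum_congr rfl h1, Finset.sum_const, smul_eq_mul, mul_one, hcard]
      omega
    · rw [if_neg hz, add_zero, ← hdiff z hz, card_pairs D (fun a b => a - b = z)]
  have hF' : ∀ g : G, (∑ d ∈ D, ∑ e ∈ D, if p • d - e = g then 1 else 0) =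
      lam + (if g = g0 then k - lam else 0) := by
    intro g
    rw [← hF g, card_pairs D (fun a b => p • a - b = g)]
  have key : ∀ y : G, (∑ e' ∈ D, if y - e' = g0 then k - lam else 0) =
      ∑ d ∈ D, if y - p • d = 0 then k - lam else 0 := by
    intro y
    have h1 : (∑ e' ∈ D, (lam + if y - e' = g0 then k - lam else 0)) =
        ∑ d ∈ D, (lam + if y - p • d = 0 then k - lam else 0) := by
      calc (∑ e' ∈ D, (lam + if y - e' = g0 then k - lam else 0))
          = ∑ e' ∈ D, ∑ d ∈ D, ∑ e ∈ D, (if p • d - e = y - e' then 1 else 0) :=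
            Finset.sum_congr rfl fun e' _ => (hF' (y - e')).symm
        _ = ∑ d ∈ D, ∑ e' ∈ D, ∑ e ∈ D, (if p • d - e = y - e' then 1 else 0) :=
            Finset.sum_comm
        _ = ∑ d ∈ D, ∑ e' ∈ D, ∑ e ∈ D, (if e' - e = y - p • d then 1 else 0) := by
            refine Finset.sum_congr rfl fun d _ => Finset.sum_congr rfl fun e' _ =>
              Finset.sum_congr rfl fun e _ => ?_
            refine if_congr ?_ rfl rfl
            constructor
            · intro h
              have : e' - e = (p • d - e) - p • d + e' := by abel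
              rw [this, h]
              abel
            · intro h
              have : p • d - e = (e' - e) + p • d - e' := by abel
              rw [this, h]
              abel
        _ = ∑ d ∈ D, (lam + if y - p • d = 0 then k - lam else 0) :=
            Finset.sum_congr rfl fun d _ => hA (y - p • d)
    rw [Finset.sum_add_distrib, Finset.sum_add_distrib] at h1
    exact Nat.add_left_cancel h1
  ext y
  rw [Finset.mem_image, Finset.mem_image]
  have h1 := sum_ne_zero_iff' D (fun e' => y - e' = g0) hn
  have h2 := sum_ne_zero_iff' D (fun d => y - p • d = 0) hn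
  rw [key y] at h1
  constructor
  · rintro ⟨d, hd, rfl⟩
    obtain ⟨e, he, h⟩ := h1.1 (h2.2 ⟨d, hd, sub_self _⟩)
    refine ⟨e, he, ?_⟩
    rw [← h]
    abel
  · rintro ⟨e, he, rfl⟩
    obtain ⟨d, hd, h⟩ := h2.1 (h1.2 ⟨e, he, by abel⟩)
    exact ⟨d, hd, (sub_eq_zero.1 h).symm⟩

end Pool.Agent.L7h36.DF
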